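import Pool.Agent.Lib.MP_823829_an.PT.Pol
import Pool.Agent.Lib.MP_823829_an.VO.Wirt

/-! The minimum principle: a nonnegative function with Laplacian bounded above which blows up at
the boundary, off a negligible set, has a negligible boundary. -/

namespace Pool.Agent.Lib.MP_823829_an.PT

open Set Filter Topology Metric MeasureTheory ContinuousLinearMap
open scoped ENNReal NNReal Convolution

variable {a ρ : E2 → ℝ} {O U : Set E2} {C ε : ℝ} {x : E2}

theorem lap_eq_levi {φ : E2 → ℝ} (h : ContDiffAt ℝ 2 φ x) : lap φ x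
    = 4 * ∑ j, (VO.levi (fun y => (φ y : ℂ)) x (Pi.single j 1) (Pi.single j 1)).re := by
  have h1 : DifferentiableAt ℝ (fderiv ℝ φ) x :=
    (h.fderiv_right (m := 1) (by norm_num)).differentiableAt one_ne_zero
  have h2 : ∀ v w, fderiv ℝ (fun y => fderiv ℝ φ y v) x w = fderiv ℝ (fderiv ℝ φ) x w v :=
    fun v w => by rw [fderiv_clm_apply h1 (differentiableAt_const _)]; simp
  have h3 : fderiv ℝ (fun y => (φ y : ℂ)) =ᶠ[𝓝 x]
      fun y => Complex.ofRealCLM.comp (fderiv ℝ φ y) :=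
    (h.eventually (by simp)).mono fun y hy => (Complex.ofRealCLM.hasFDerivAt.comp y
      (hy.differentiableAt two_ne_zero).hasFDerivAt).fderiv
  have h4 : ∀ v w, fderiv ℝ (fderiv ℝ fun y => (φ y : ℂ)) x w v
      = (fderiv ℝ (fderiv ℝ φ) x w v : ℝ) := fun v w => by
    rw [h3.fderiv_eq, fderiv_clm_comp (differentiableAt_const _) h1]; simp
  have h5 : ∀ j : Fin 2, Complex.I • (Pi.single j 1 : E2) = Pi.single j Complex.I := fun j => by
    rw [← Pi.single_smul', smul_eq_mul, mul_one]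
  simp only [lap, h2, VO.levi, VO.pb, VO.fderiv_pd (VO.contDiffAt_ofReal h)
    (differentiableAt_const _), h4, h5, Fintype.sum_prod_type, Finset.mul_sum, dir]
  refine Finset.sum_congr rfl fun j _ => ?_
  simp
  ring

theorem WSup.mono (h : WSup a O C) {O' : Set E2} (hO : O' ⊆ O) {C' : ℝ} (hC : C ≤ C') :
    WSup a O' C' := fun φ h1 h2 h3 h4 =>
  (h φ h1 h2 (h3.trans hO) h4).trans (mul_le_mul_of_nonneg_right hC (integral_nonneg h4))

theorem fderiv_refl {g : E2 → ℝ} (hg : Differentiable ℝ g) (x y v : E2) :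
    fderiv ℝ (fun y => g (x - y)) y v = -fderiv ℝ g (x - y) v := by
  have := ((hg (x - y)).hasFDerivAt.comp y ((hasFDerivAt_id y).const_sub x)).fderiv
  rw [show (fun y => g (x - y)) = g ∘ HSub.hSub x from rfl, this]
  simp

theorem conv_deriv {f g : E2 → ℝ} (hf : LocallyIntegrable f) (hg : ContDiff ℝ 1 g)
    (hc : HasCompactSupport g) (x v : E2) (t : ℝ) :
    HasDerivAt (fun t : ℝ => (f ⋆[lsmul ℝ ℝ, volume] g) (x + t • v))
      ((f ⋆[lsmul ℝ ℝ, volume] fun y => fderiv ℝ g y v) (x + t • v)) t := by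
  have := (hc.hasFDerivAt_convolution_right (lsmul ℝ ℝ) hf hg (x + t • v)).comp_hasDerivAt t
    (hasDerivAt_line x v t)
  rwa [convolution_precompR_apply _ hf (hc.fderiv ℝ) (hg.continuous_fderiv one_ne_zero)] at this

theorem refl_zero (h2 : tsupport ρ ⊆ closedBall 0 ε) {y : E2} (hy : y ∉ closedBall x ε) :
    x - y ∉ tsupport ρ := fun h => hy (by
  simpa [dist_eq_norm, norm_sub_rev] using h2 h)

theorem le_mol (ha : IntegrableOn a (closedBall x ε)) (h1 : Continuous ρ)
    (h2 : tsupport ρ ⊆ closedBall 0 ε) (h3 : ∀ x, 0 ≤ ρ x) (h4 : ∫ x, ρ x = 1) {N : ℝ}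
    (hN : ∀ᵐ y, y ∈ closedBall x ε → N ≤ a y) : N ≤ ∫ y, a y * ρ (x - y) := by
  have h0 : ∀ y ∉ closedBall x ε, ρ (x - y) = 0 := fun y hy =>
    image_eq_zero_of_notMem_tsupport (refl_zero h2 hy)
  have hi : ∀ b : E2 → ℝ, IntegrableOn b (closedBall x ε) → Integrable fun y => b y * ρ (x - y) :=
    fun b hb => (hb.mul_continuousOn (by fun_prop) (isCompact_closedBall x ε)
      ).integrable_of_forall_notMem_eq_zero fun y hy => by rw [h0 y hy, mul_zero]
  have := integral_mono_ae (hi (fun _ => N)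
    (continuousOn_const.integrableOn_compact (isCompact_closedBall x ε))) (hi a ha)
    (hN.mono fun y hy => by
      by_cases h : y ∈ closedBall x ε
      · exact mul_le_mul_of_nonneg_right (hy h) (h3 _)
      · simp [h0 y h])
  rwa [integral_const_mul, integral_sub_left_eq_self, h4, mul_one] at this

theorem sub_mol (hO : IsOpen O) (ha : LocallyIntegrableOn a O) (hw : WSup a O C)
    (h1 : ContDiff ℝ (⊤ : ℕ∞) ρ) (h2 : tsupport ρ ⊆ closedBall 0 ε) (h3 : ∀ x, 0 ≤ ρ x)
    (h4 : ∫ x, ρ x = 1) (hε : 0 ≤ ε) (hx : closedBall x ε ⊆ O) :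
    ContinuousAt (fun x => ∫ y, a y * ρ (x - y)) x ∧
      Sub (fun x => -∫ y, a y * ρ (x - y)) x (-C) := by
  obtain ⟨δ, hδ, hK⟩ := (isCompact_closedBall x ε).exists_cthickening_subset_open hO hx
  rw [cthickening_closedBall hδ.le hε] at hK
  set K := closedBall x (δ + ε)
  have hf : LocallyIntegrable (K.indicator a) :=
    ((ha.integrableOn_compact_subset hK (isCompact_closedBall _ _)).integrable_indicator
      isClosed_closedBall.measurableSet).locallyIntegrable
  have hc : HasCompactSupport ρ :=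
    (isCompact_closedBall 0 ε).of_isClosed_subset (isClosed_tsupport ρ) h2
  have he : ∀ g : E2 → ℝ, tsupport g ⊆ closedBall 0 ε → ∀ z ∈ ball x δ,
      (K.indicator a ⋆[lsmul ℝ ℝ, volume] g) z = ∫ y, a y * g (z - y) := fun g hg z hz => by
    refine integral_congr_ae (Eventually.of_forall fun y => ?_)
    by_cases hy : y ∈ K
    · simp [hy]
    · have : y ∉ closedBall z ε := fun h => hy (mem_closedBall.2 (by
        linarith [mem_closedBall.1 h, mem_ball.1 hz, dist_triangle y z x]))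
      simp [hy, image_eq_zero_of_notMem_tsupport (refl_zero hg this)]
  have he' : (K.indicator a ⋆[lsmul ℝ ℝ, volume] ρ) =ᶠ[𝓝 x] fun z => ∫ y, a y * ρ (z - y) :=
    eventually_of_mem (ball_mem_nhds x hδ) (he ρ h2)
  refine ⟨(hc.continuous_convolution_right _ hf h1.continuous).continuousAt.congr he', ?_⟩
  let g : Fin 2 × Fin 2 → E2 → ℝ := fun d y => fderiv ℝ ρ y (dir d)
  have g1 : ∀ d, ContDiff ℝ 1 (g d) := fun d =>
    (h1.fderiv_right (m := 1) (by norm_cast)).clm_apply contDiff_const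
  have g2 : ∀ d, HasCompactSupport (g d) := fun d => hc.fderiv_apply ℝ _
  have g3 : ∀ d, HasCompactSupport fun y => fderiv ℝ (g d) y (dir d) := fun d =>
    (g2 d).fderiv_apply ℝ _
  have h5 := sub_of_deriv (s := fun z => -(K.indicator a ⋆[lsmul ℝ ℝ, volume] ρ) z) (x := x)
    (fun d => Eventually.of_forall fun t =>
      (conv_deriv hf (h1.of_le (by exact_mod_cast le_top)) hc x (dir d) t).neg)
    fun d => (conv_deriv hf (g1 d) (g2 d) x (dir d) 0).neg
  refine (h5.congr he'.neg).mono ?_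
  have h6 := hw (fun y => ρ (x - y)) (h1.comp (contDiff_const.sub contDiff_id))
    (hc.comp_homeomorph (Homeomorph.subLeft x))
    ((closure_minimal (s := Function.support fun y => ρ (x - y)) (fun y hy => by_contra fun h =>
      hy (image_eq_zero_of_notMem_tsupport (refl_zero h2 h))) isClosed_closedBall).trans hx)
    fun y => h3 _
  rw [integral_sub_left_eq_self, h4, mul_one] at h6
  rw [Finset.sum_neg_distrib, neg_le_neg_iff]
  simp only [zero_smul, add_zero]
  refine le_of_eq_of_le ?_ h6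
  have h7 : ∀ y, lap (fun y => ρ (x - y)) y = lap ρ (x - y) := fun y => by
    refine Finset.sum_congr rfl fun d _ => ?_
    simp only [fderiv_refl (h1.differentiable (by simp))]
    rw [fderiv_fun_neg, neg_apply, fderiv_refl ((g1 d).differentiable one_ne_zero), neg_neg]
  have h8 : tsupport (lap ρ) ⊆ closedBall 0 ε := by
    refine (closure_minimal (s := Function.support (lap ρ))
      (fun y hy => by_contra fun h => hy ?_) (isClosed_tsupport ρ)).trans h2
    refine Finset.sum_eq_zero fun d _ => image_eq_zero_of_notMem_tsupport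
      (f := fun y => fderiv ℝ (g d) y (dir d)) fun h9 => h ?_
    exact tsupport_fderiv_apply_subset ℝ _ (tsupport_fderiv_apply_subset ℝ _ h9)
  simp only [h7]
  rw [← he _ h8 x (mem_ball_self hδ)]
  simp only [convolution_def]
  rw [← integral_finsetSum _ fun d _ => ((g3 d).convolutionExists_right (lsmul ℝ ℝ) hf
    (((g1 d).continuous_fderiv one_ne_zero).clm_apply continuous_const) x).integrable]
  simp only [lap, map_sum]
  rfl

theorem isOpen_good (a : E2 → ℝ) (U : Set E2) (N : ℝ) :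
    IsOpen {x | ∃ O ∈ 𝓝 x, ∀ᵐ y, y ∈ O → y ∈ U → N ≤ a y} :=
  isOpen_iff_mem_nhds.2 fun _ ⟨O, h1, h2⟩ =>
    mem_of_superset (eventually_mem_nhds_iff.2 h1) fun _ hy => ⟨O, hy, h2⟩

theorem ae_good (a : E2 → ℝ) (U : Set E2) (N : ℝ) :
    ∀ᵐ y, (∃ O ∈ 𝓝 y, ∀ᵐ z, z ∈ O → z ∈ U → N ≤ a z) → y ∈ U → N ≤ a y :=
  measure_null_of_locally_null _ fun x hx => by
    obtain ⟨O, h1, h2⟩ := (Classical.not_imp.1 hx).1
    refine ⟨_, inter_mem_nhdsWithin _ h1, measure_mono_null (fun y hy => ?_) (ae_iff.1 h2)⟩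
    exact fun h3 => hy.1 fun _ => h3 hy.2

/-- The minimum principle, local form. -/
theorem np_frontier {c : E2} {η : ℝ} (hη : 0 < η) (hU : IsOpen U) (h0 : ∀ᵐ y, y ∈ U → 0 ≤ a y)
    (hi : LocallyIntegrableOn a (U ∩ ball c (10 * η))) (hw : WSup a (U ∩ ball c (10 * η)) C)
    (hb : NP {x ∈ closedBall c (9 * η) \ U | ¬ Blow a U x}) :
    NP (frontier U ∩ closedBall c η) := by
  by_contra hn
  replace hw := hw.mono subset_rfl (le_abs_self C)
  have hO := hU.inter (isOpen_ball (x := c) (ε := 10 * η))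
  obtain ⟨u, κ, hκ, hu, u1, u2, u3⟩ := barrier isClosed_frontier hη hn
  obtain ⟨M, hM⟩ := (isCompact_closedBall c (8 * η)).exists_bound_of_continuousOn hu.continuousOn
  have hM0 : 0 < M := hκ.trans_le ((u3 c (mem_closedBall_self (by linarith))).trans
    ((le_abs_self _).trans (hM c (mem_closedBall_self (by linarith)))))
  obtain ⟨z₀, hz₀⟩ : (frontier U ∩ closedBall c η).Nonempty :=
    nonempty_iff_ne_empty.2 fun h => hn (h ▸ np_empty)
  obtain ⟨z, hz1, hz2⟩ := _root_.mem_closure_iff.1 hz₀.1.1 _ isOpen_ball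
    (closedBall_subset_ball (by linarith : η < 2 * η) hz₀.2)
  obtain ⟨R, hR, hz⟩ := nhds_basis_closedBall.mem_iff.1
    ((hU.inter isOpen_ball).mem_nhds ⟨hz2, hz1⟩)
  set r := R / 2
  have hr : 0 < r := half_pos hR
  let φ : ℕ → ContDiffBump (0 : E2) := fun n =>
    ⟨1 / ((n : ℝ) + 1) / 2, 1 / ((n : ℝ) + 1), by positivity, half_lt_self (by positivity)⟩
  have hφ : Tendsto (fun n => (φ n).rOut) atTop (𝓝 0) := tendsto_one_div_add_atTop_nhds_zero_nat
  obtain ⟨x₀, hx₀, hlim⟩ := Measure.exists_mem_of_measure_ne_zero_of_ae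
    (measure_ball_pos volume z hr).ne' (ae_restrict_of_ae
      (ContDiffBump.ae_convolution_tendsto_right_of_locallyIntegrable (K := 2) hφ
        (Eventually.of_forall fun n => le_of_eq (by simp only [φ]; ring))
        ((hi.integrableOn_compact_subset (hz.trans (inter_subset_inter_right _
          (ball_subset_ball (by linarith)))) (isCompact_closedBall z R)).integrable_indicator
          isClosed_closedBall.measurableSet).locallyIntegrable))
  have hxr : closedBall x₀ r ⊆ closedBall z R :=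
    closedBall_subset_closedBall' (by have := mem_ball.1 hx₀; simp only [r] at this ⊢; linarith)
  have hxU : ∀ y ∉ U, r ≤ dist x₀ y := fun y hy =>
    not_lt.1 fun h => hy (hz (hxr (mem_closedBall'.2 h.le))).1
  let b : ℕ → E2 → ℝ := fun n x => ∫ y, a y * (φ n).normed volume (x - y)
  have hb0 : Tendsto (fun n => b n x₀) atTop (𝓝 ((closedBall z R).indicator a x₀)) := by
    refine hlim.congr' ((hφ.eventually (ge_mem_nhds hr)).mono fun n hn => ?_)
    simp only [convolution_lsmul_swap]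
    refine integral_congr_ae (Eventually.of_forall fun y => ?_)
    by_cases hy : y ∈ closedBall z R
    · simp [hy, mul_comm]
    · simp [hy, image_eq_zero_of_notMem_tsupport (refl_zero (φ n).tsupport_normed_eq.subset
        fun h => hy (hxr (closedBall_subset_closedBall hn h)))]
  set A := (closedBall z R).indicator a x₀
  set B := |C| / 8 * (2 * (8 * η) ^ 2)
  suffices H : ∀ N > 0, N / M * κ ≤ A + 1 + B by
    have := H ((|A + 1 + B| + 1) * M / κ) (by positivity)
    rw [show (|A + 1 + B| + 1) * M / κ / M * κ = |A + 1 + B| + 1 by field_simp] at this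
    linarith [le_abs_self (A + 1 + B)]
  intro N hN
  set G := {x | ∃ O ∈ 𝓝 x, ∀ᵐ y, y ∈ O → y ∈ U → N ≤ a y}
  have hT := (isCompact_closedBall c (9 * η)).diff hU
  set T := closedBall c (9 * η) \ U
  obtain ⟨p, ⟨p1, p2, p3, p4⟩, p5⟩ := NP.pol (Q := T \ G)
    (P := {p | Continuous p ∧ (∀ x, 0 ≤ p x) ∧ (∀ x, Sub (fun y => -p y) x 0) ∧ p x₀ ≤ (r ^ 2)⁻¹})
    (hb.mono fun x hx => ⟨hx.1, fun h => hx.2 (h N)⟩) (hT.diff (isOpen_good a U N))
    (fun p ⟨p1, p2, p3, p4⟩ q ⟨q1, q2, q3, q4⟩ s t hs ht hst => ⟨by fun_prop,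
      fun x => add_nonneg (mul_nonneg hs (p2 x)) (mul_nonneg ht (q2 x)),
      fun x => by simpa [add_comm] using ((p3 x).mul hs).add ((q3 x).mul ht),
      convex_Iic ((r ^ 2)⁻¹) (x := p x₀) p4 (y := q x₀) q4 hs ht hst⟩) (fun p hp => hp.1)
    ⟨fun _ => 0, continuous_const, fun _ => le_rfl, fun x => sub_const _ x, by positivity⟩
    (fun c' hc' θ hθ => ⟨Continuous.inv₀ (by have := continuous_nsq; fun_prop)
      fun y => (add_pos_of_nonneg_of_pos (nsq_nonneg _) hθ).ne',
      fun y => inv_nonneg.2 (add_nonneg (nsq_nonneg _) hθ.le), sub_keta hθ c',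
      inv_anti₀ (by positivity) (by
        have h1 := hxU c' hc'.1.2
        rw [dist_eq_norm] at h1
        linarith [sq_le_nsq (x₀ - c'), pow_le_pow_left₀ hr.le h1 2])⟩) (N / r ^ 2)
  have hP : IsOpen {x | N / r ^ 2 < p x} := isOpen_lt continuous_const p1
  obtain ⟨δ, hδ, hδG⟩ := (hT.diff hP).exists_thickening_subset_open (isOpen_good a U N)
    fun x hx => by_contra fun h => hx.2 (p5 x ⟨hx.1, h⟩)
  obtain ⟨δ', hδ', hδT⟩ := hT.exists_thickening_subset_open
    (hP.union (isOpen_thickening (δ := δ / 2) (E := T \ {x | N / r ^ 2 < p x}))) fun x hx => by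
      by_cases h : N / r ^ 2 < p x
      · exact Or.inl h
      · exact Or.inr (self_subset_thickening (half_pos hδ) _ ⟨hx, h⟩)
  refine le_of_sub_nonpos (le_of_tendsto (f := fun n => N / M * κ - (b n x₀ + 1 + B))
    (((hb0.add_const 1).add_const B).const_sub _) ?_)
  filter_upwards [hφ.eventually (gt_mem_nhds (lt_min (lt_min (half_pos hδ) (half_pos hr))
    (lt_min (by positivity : 0 < δ' / 3) (by positivity : 0 < η / 3))))] with n hn
  simp only [lt_min_iff] at hn
  obtain ⟨⟨e1, e2⟩, e3, e4⟩ := hn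
  set ε := (φ n).rOut
  have hε : 0 < ε := (φ n).rOut_pos
  have hs := (φ n).tsupport_normed_eq (μ := volume)
  set D := closedBall c (8 * η) \ thickening (2 * ε) Uᶜ
  have hD : ∀ x ∈ D, closedBall x ε ⊆ U ∩ ball c (10 * η) := fun x hx y hy =>
    ⟨by_contra fun h => hx.2 (mem_thickening_iff.2 ⟨y, h, by linarith [mem_closedBall'.1 hy]⟩),
      mem_ball.2 (by linarith [mem_closedBall.1 hy, mem_closedBall.1 hx.1, dist_triangle y x c])⟩
  have hm := fun x hx => sub_mol hO hi hw (φ n).contDiff_normed hs.subset (φ n).nonneg_normed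
    (φ n).integral_normed hε.le (hD x hx)
  have hl := fun x hx (N : ℝ) => le_mol (hi.integrableOn_compact_subset (hD x hx)
    (isCompact_closedBall x ε)) (φ n).continuous_normed hs.subset (φ n).nonneg_normed
    (φ n).integral_normed (N := N)
  have hn := continuous_nsq
  have key := max_principle (C := D) (M := B)
    (s := fun x => N / M * u x + -b n x + |C| / 8 * nsq (x - c) + r ^ 2 * -p x)
    ((isCompact_closedBall c _).diff isOpen_thickening)
    (fun x hx => ContinuousAt.continuousWithinAt (by have := (hm x hx).1; fun_prop))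
    (fun x hx => ?_) x₀ ⟨closedBall_subset_closedBall (by linarith) (ball_subset_closedBall
      (hz (hxr (mem_closedBall_self hr.le))).2), fun h => by
        obtain ⟨y, y1, y2⟩ := mem_thickening_iff.1 h
        linarith [hxU y y1]⟩
  · have h1 := mul_le_mul_of_nonneg_left (u3 x₀ (ball_subset_closedBall
      (hz (hxr (mem_closedBall_self hr.le))).2)) (div_pos hN hM0).le
    have h2 := mul_le_mul_of_nonneg_left p4 (sq_nonneg r)
    rw [mul_inv_cancel₀ (by positivity)] at h2
    have h3 : 0 ≤ |C| / 8 * nsq (x₀ - c) := mul_nonneg (by positivity) (nsq_nonneg _)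
    linarith
  have h1 : |C| / 8 * nsq (x - c) ≤ B := by
    refine mul_le_mul_of_nonneg_left ((nsq_le _).trans ?_) (by positivity)
    have := mem_closedBall_iff_norm.1 hx.1
    gcongr
  have h2 : 0 ≤ b n x := hl x hx 0 (h0.mono fun y hy h => hy (hD x hx h).1)
  have h3 : N / M * u x ≤ N := by
    have := mul_le_mul_of_nonneg_left ((le_abs_self _).trans (hM x hx.1)) (div_pos hN hM0).le
    rwa [div_mul_cancel₀ _ hM0.ne'] at this
  have h4 := mul_nonneg (sq_nonneg r) (p2 x)
  by_cases h5 : x ∈ ball c (8 * η)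
  swap
  · have : N / M * u x ≤ 0 := mul_nonpos_of_nonneg_of_nonpos (div_pos hN hM0).le (u2 x h5)
    exact Or.inl (by linarith)
  by_cases h6 : x ∈ thickening (3 * ε) Uᶜ
  · obtain ⟨y, y1, y2⟩ := mem_thickening_iff.1 h6
    rcases hδT (mem_thickening_iff.2 ⟨y, ⟨mem_closedBall.2 (by
      linarith [mem_ball.1 h5, dist_triangle_left y c x]), y1⟩, by linarith⟩) with h7 | h7
    · have := (div_lt_iff₀ (pow_pos hr 2)).1 h7
      exact Or.inl (by linarith)
    · obtain ⟨w, w1, w2⟩ := mem_thickening_iff.1 h7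
      have := hl x hx N ((ae_good a U N).mono fun v hv h => hv (hδG (mem_thickening_iff.2
        ⟨w, w1, by linarith [mem_closedBall.1 h, dist_triangle v x w]⟩)) (hD x hx h).1)
      exact Or.inl (by linarith)
  refine Or.inr ⟨?_, ?_⟩
  · filter_upwards [isOpen_ball.mem_nhds h5, ball_mem_nhds x hε] with y y1 y2
    refine ⟨ball_subset_closedBall y1, fun h => h6 ?_⟩
    obtain ⟨w, w1, w2⟩ := mem_thickening_iff.1 h
    exact mem_thickening_iff.2 ⟨w, w1, by linarith [mem_ball'.1 y2, dist_triangle x y w]⟩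
  · have h7 : x ∉ frontier U ∩ closedBall c η := fun h =>
      (hU.frontier_eq ▸ h.1).2 (hD x hx (mem_closedBall_self hε.le)).1
    exact (((((u1 x h7).mul (div_pos hN hM0).le).add (hm x hx).2).add ((sub_nsq c x).mul
      (by positivity))).add ((p3 x).mul (sq_nonneg r))).mono (le_of_eq (by ring))

/-- The removal theorem. -/
theorem removal {D : Set E2} (hD : IsOpen D) (hc : IsPreconnected D) (hU : IsOpen U)
    (hUD : U ⊆ D) (hne : U.Nonempty) (h0 : ∀ᵐ y, y ∈ U → 0 ≤ a y) (hi : LocallyIntegrableOn a U)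
    (hw : ∀ x ∈ D, ∃ r > 0, ∃ C, WSup a (U ∩ ball x r) C)
    (hb : NP {x ∈ D \ U | ¬ Blow a U x}) : NP (D \ U) := by
  have h1 : NP (D \ (frontier U)ᶜ) := np_loc fun x hx => by
    obtain ⟨r, hr, C, hw⟩ := hw x hx.1
    obtain ⟨r', hr', h2⟩ := Metric.isOpen_iff.1 hD x hx.1
    have h3 := min_le_left r r'
    have h4 := min_le_right r r'
    have h5 : 0 < min r r' / 10 := by positivity
    exact ⟨_, closedBall_mem_nhds x h5, (np_frontier h5 hU h0 (hi.mono_set inter_subset_left)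
      (hw.mono (inter_subset_inter_right _ (ball_subset_ball (by linarith))) le_rfl)
      (hb.mono fun y hy => ⟨⟨h2 (closedBall_subset_ball (by linarith) hy.1.1), hy.1.2⟩,
        hy.2⟩)).mono fun y hy => ⟨not_not.1 hy.1.2, hy.2⟩⟩
  have e : D \ (D \ (frontier U)ᶜ) = D ∩ (frontier U)ᶜ := by ext; simp +contextual
  have h2 := GM.isPreconnected_diff_of_isOpen (s := 3) (by norm_num)
    (by rw [finrank_E2]; norm_num) (h1.hnull hD isClosed_frontier.isOpen_compl (by norm_num)) hD hc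
    (e ▸ hD.inter isClosed_frontier.isOpen_compl)
  rw [e] at h2
  obtain ⟨x, hx⟩ := hne
  have h3 := h2.subset_left_of_subset_union hU isClosed_closure.isOpen_compl
    (disjoint_left.2 fun y y1 y2 => y2 (subset_closure y1))
    (fun y hy => by_contra fun h => hy.2 (by
      rw [hU.frontier_eq]; exact ⟨not_not.1 (not_or.1 h).2, (not_or.1 h).1⟩))
    ⟨x, mem_inter (mem_inter (hUD hx) fun h => (hU.frontier_eq ▸ h).2 hx) hx⟩
  exact h1.mono fun y hy => ⟨hy.1, fun h => hy.2 (h3 ⟨hy.1, h⟩)⟩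

/-- The removal theorem in the form used for the area function. -/
theorem removal_vol {W : Set E2} (hU : IsOpen U) (hc : IsPreconnected U) (hW : IsOpen W)
    (hWU : W ⊆ U) (hne : W.Nonempty) (h0 : ∀ z, 0 ≤ a z) (hi : LocallyIntegrableOn a W)
    (ha : ∀ K, IsCompact K → K ⊆ U → ∃ C : ℝ, ∀ ψ : E2 → ℝ, ContDiff ℝ 2 ψ → (∀ z, 0 ≤ ψ z) →
      tsupport ψ ⊆ K ∩ W → |∫ z, a z * ∑ i, (VO.levi (fun y => (ψ y : ℂ)) z (Pi.single i 1)
        (Pi.single i 1)).re| ≤ C * ∫ z, ψ z)
    (hb : NP {z ∈ U \ W | ∃ N : ℝ, ∀ O ∈ 𝓝 z, volume {y ∈ W ∩ O | a y ≤ N} ≠ 0}) :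
    NP (U \ W) := by
  refine removal hU hc hW hWU hne (Eventually.of_forall fun y _ => h0 y) hi (fun x hx => ?_)
    (hb.mono fun x hx => ⟨hx.1, ?_⟩)
  · obtain ⟨r, hr, h1⟩ := nhds_basis_closedBall.mem_iff.1 (hU.mem_nhds hx)
    obtain ⟨C, hC⟩ := ha _ (isCompact_closedBall x r) h1
    refine ⟨r, hr, 4 * C, fun φ h2 _ h3 h4 => ?_⟩
    have h5 : ContDiff ℝ 2 φ := h2.of_le (by norm_cast)
    have := (le_abs_self _).trans (hC φ h5 h4 fun y hy =>
      ⟨ball_subset_closedBall (h3 hy).2, (h3 hy).1⟩)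
    simp only [lap_eq_levi h5.contDiffAt, mul_left_comm _ (4 : ℝ)]
    rw [integral_const_mul]
    linarith
  · by_contra! h
    refine hx.2 fun N => ?_
    obtain ⟨O, h1, h2⟩ := h N
    exact ⟨O, h1, measure_mono_null (fun y hy => by
      simp only [mem_compl_iff, mem_ofPred_eq, not_forall, not_le] at hy
      obtain ⟨y1, y2, y3⟩ := hy
      exact ⟨⟨y2, y1⟩, y3.le⟩) h2⟩

/-- The removal theorem when the exceptional set lies in countably many holomorphic curves. -/
theorem removal_thin {W : Set E2} (hU : IsOpen U) (hc : IsPreconnected U) (hW : IsOpen W)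
    (hWU : W ⊆ U) (hne : W.Nonempty) (h0 : ∀ z, 0 ≤ a z) (hi : LocallyIntegrableOn a W)
    (ha : ∀ K, IsCompact K → K ⊆ U → ∃ C : ℝ, ∀ ψ : E2 → ℝ, ContDiff ℝ 2 ψ → (∀ z, 0 ≤ ψ z) →
      tsupport ψ ⊆ K ∩ W → |∫ z, a z * ∑ i, (VO.levi (fun y => (ψ y : ℂ)) z (Pi.single i 1)
        (Pi.single i 1)).re| ≤ C * ∫ z, ψ z)
    (hb : LA.Thin 1 {z ∈ U \ W | ∃ N : ℝ, ∀ O ∈ 𝓝 z, volume {y ∈ W ∩ O | a y ≤ N} ≠ 0})
    {s : ℝ} (hs : 2 < s) : μH[s] (U \ W) = 0 :=
  (removal_vol hU hc hW hWU hne h0 hi ha (np_of_thin hb)).hnull hU hW hs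

end Pool.Agent.Lib.MP_823829_an.PT
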