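import Mathlib

/-! Newtonian potential theory on `ℂ²` seen as `ℝ⁴`: definitions. -/

namespace Pool.Agent.Lib.MP_823829_an.PT

open Set Filter Topology Metric MeasureTheory
open scoped ENNReal

noncomputable section

/-- the space `ℂ²` with the sup norm -/
abbrev E2 := Fin 2 → ℂ

/-- square of the Euclidean norm -/
def nsq (x : E2) : ℝ := ‖x 0‖ ^ 2 + ‖x 1‖ ^ 2

/-- the four real directions `e₀, i e₀, e₁, i e₁` -/
def dir (d : Fin 2 × Fin 2) : E2 := Pi.single d.1 (Complex.I ^ (d.2 : ℕ))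

/-- the Laplacian -/
def lap (s : E2 → ℝ) (x : E2) : ℝ :=
  ∑ d, fderiv ℝ (fun y => fderiv ℝ s y (dir d)) x (dir d)

/-- the discrete Laplacian -/
def dlap (s : E2 → ℝ) (x : E2) (t : ℝ) : ℝ :=
  ∑ d, (s (x + t • dir d) + s (x - t • dir d) - 2 * s x)

/-- the Laplacian of `s` at `x` is at least `c`, in the sense of second differences -/
def Sub (s : E2 → ℝ) (x : E2) (c : ℝ) : Prop :=
  ∀ κ : ℝ, 0 < κ → ∀ᶠ t in 𝓝[>] (0 : ℝ), (c - κ) * t ^ 2 ≤ dlap s x t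

/-- the Newton kernel (for the sup norm) -/
def ker (x y : E2) : ℝ≥0∞ := (‖x - y‖ₑ ^ 2)⁻¹

/-- Kato measures: uniform tail condition for the Newton potential -/
def Kato (μ : Measure E2) : Prop :=
  ∀ ε : ℝ≥0∞, 0 < ε → ∃ δ : ℝ, 0 < δ ∧ ∀ x, ∫⁻ y in ball x δ, ker x y ∂μ ≤ ε

/-- negligible (Newton polar) sets: null for every finite Kato measure -/
def NP (S : Set E2) : Prop := ∀ μ : Measure E2, IsFiniteMeasure μ → Kato μ → μ S = 0

/-- Newton potential -/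
def pot (μ : Measure E2) (x : E2) : ℝ := ∫ y, (nsq (x - y))⁻¹ ∂μ

/-- two constants property: bounded holomorphic functions on `V` which are small on `K` are small
on `V'` -/
def TCp (K V V' : Set E2) (ε : ℝ) : Prop :=
  ∀ h : E2 → ℂ, DifferentiableOn ℂ h V → (∀ z ∈ V, ‖h z‖ ≤ 1) → ∀ t : ℝ, 0 ≤ t →
    (∀ z ∈ V, z ∈ K → ‖h z‖ ≤ Real.exp (-t)) → ∀ z ∈ V', ‖h z‖ ≤ Real.exp (-((1 - ε) * t))

/-- regular points of `K`: the two constants property holds with exponents tending to one -/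
def TCpt (K : Set E2) (ζ : E2) : Prop :=
  ∀ r ε : ℝ, 0 < r → 0 < ε → ∃ r', 0 < r' ∧ r' ≤ r ∧ TCp K (ball ζ r) (ball ζ r') ε

/-- the weak inequality `Δ a ≤ C` on `O` -/
def WSup (a : E2 → ℝ) (O : Set E2) (C : ℝ) : Prop :=
  ∀ φ : E2 → ℝ, ContDiff ℝ (⊤ : ℕ∞) φ → HasCompactSupport φ → tsupport φ ⊆ O → (∀ x, 0 ≤ φ x) →
    ∫ x, a x * lap φ x ≤ C * ∫ x, φ x

/-- `a` tends to infinity at `x` along `U`, up to null sets -/
def Blow (a : E2 → ℝ) (U : Set E2) (x : E2) : Prop :=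
  ∀ N : ℝ, ∃ O ∈ 𝓝 x, ∀ᵐ y, y ∈ O → y ∈ U → N ≤ a y

end

end Pool.Agent.Lib.MP_823829_an.PT
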