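import Pool.Agent.Lib.MP_823829_an.PT.Defs
import Pool.Agent.Lib.MP_823829_an.GM.Energy
import Pool.Agent.Lib.MP_823829_an.GM.Sep
import Pool.Agent.Lib.MP_823829_an.LA.Basic

/-! Kato measures and negligible sets. -/

namespace Pool.Agent.Lib.MP_823829_an.PT

open Set Filter Topology Metric MeasureTheory
open scoped ENNReal NNReal

variable {S T : Set E2} {μ ν : Measure E2}

theorem measurable_ker : Measurable fun p : E2 × E2 => ker p.1 p.2 := by
  unfold ker; fun_prop

theorem measurable_ker' (x : E2) : Measurable (ker x) := by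
  unfold ker; fun_prop

theorem ker_eq (x y : E2) : ker x y = ENNReal.ofReal (dist y x) ^ (-(2 : ℝ)) := by
  rw [ker, ENNReal.rpow_neg, ENNReal.rpow_two, dist_comm, dist_eq_norm, ofReal_norm]

theorem finrank_E2 : Module.finrank ℝ E2 = 4 := by
  rw [Module.finrank_pi_fintype]; simp

theorem NP.mono (h : NP T) (hS : S ⊆ T) : NP S := fun μ h1 h2 => measure_mono_null hS (h μ h1 h2)

theorem np_empty : NP ∅ := fun _ _ _ => measure_empty

theorem NP.union (h : NP S) (h' : NP T) : NP (S ∪ T) := fun μ h1 h2 =>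
  measure_union_null (h μ h1 h2) (h' μ h1 h2)

theorem np_iUnion {ι : Sort*} [Countable ι] {S : ι → Set E2} (h : ∀ i, NP (S i)) :
    NP (⋃ i, S i) := fun μ h1 h2 => measure_iUnion_null fun i => h i μ h1 h2

theorem np_biUnion {ι : Type*} {I : Set ι} (hI : I.Countable) {S : ι → Set E2}
    (h : ∀ i ∈ I, NP (S i)) : NP (⋃ i ∈ I, S i) := fun μ h1 h2 =>
  (measure_biUnion_null_iff hI).2 fun i hi => h i hi μ h1 h2

theorem np_loc (h : ∀ x ∈ S, ∃ N ∈ 𝓝 x, NP (S ∩ N)) : NP S := fun μ h1 h2 =>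
  measure_null_of_locally_null _ fun x hx =>
    let ⟨N, hN, h3⟩ := h x hx
    ⟨S ∩ N, inter_mem_nhdsWithin _ hN, h3 μ h1 h2⟩

theorem Kato.mono (h : Kato μ) (hle : ν ≤ μ) : Kato ν := fun ε hε =>
  let ⟨δ, hδ, h1⟩ := h ε hε
  ⟨δ, hδ, fun x => (lintegral_mono' (Measure.restrict_mono subset_rfl hle) le_rfl).trans (h1 x)⟩

theorem Kato.restrict (h : Kato μ) (B : Set E2) : Kato (μ.restrict B) :=
  h.mono Measure.restrict_le_self

theorem le_ker {x y : E2} {r : ℝ} (h : dist y x ≤ r) : (ENNReal.ofReal r ^ 2)⁻¹ ≤ ker x y := by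
  rw [ker, ← ofReal_norm, ← dist_eq_norm, dist_comm]
  gcongr

theorem ker_le {x y : E2} {r : ℝ} (h : r ≤ dist y x) : ker x y ≤ (ENNReal.ofReal r ^ 2)⁻¹ := by
  rw [ker, ← ofReal_norm, ← dist_eq_norm, dist_comm]
  gcongr

/-- Kato measures have small quadratic density. -/
theorem Kato.ball_le (h : Kato μ) {ε : ℝ≥0∞} (hε : 0 < ε) (hε' : ε ≠ ∞) :
    ∃ δ > 0, ∀ x r, r < δ → μ (closedBall x r) ≤ ε * ENNReal.ofReal r ^ 2 := by
  obtain ⟨δ, hδ, h1⟩ := h ε hε
  refine ⟨δ, hδ, fun x r hr => ?_⟩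
  have h2 : (ENNReal.ofReal r ^ 2)⁻¹ * μ (closedBall x r) ≤ ε := by
    refine le_trans ?_ ((lintegral_mono_set (closedBall_subset_ball hr)).trans (h1 x))
    rw [← setLIntegral_const]
    exact setLIntegral_mono' isClosed_closedBall.measurableSet fun y hy => le_ker hy
  rw [mul_comm, ← div_eq_mul_inv] at h2
  exact (ENNReal.div_le_iff_le_mul (Or.inr hε') (Or.inl (by simp))).1 h2

theorem Kato.lintegral_lt [IsFiniteMeasure μ] (h : Kato μ) :
    ∃ M < ∞, ∀ x, ∫⁻ y, ker x y ∂μ ≤ M := by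
  obtain ⟨δ, hδ, h1⟩ := h 1 one_pos
  refine ⟨1 + (ENNReal.ofReal δ ^ 2)⁻¹ * μ univ, ENNReal.add_lt_top.2 ⟨by simp,
    ENNReal.mul_lt_top (ENNReal.inv_lt_top.2 (ENNReal.pow_pos (by simpa using hδ) 2))
      (measure_lt_top _ _)⟩, fun x => ?_⟩
  rw [← lintegral_add_compl _ (isOpen_ball (x := x) (ε := δ)).measurableSet]
  refine add_le_add (h1 x) ((setLIntegral_mono' isOpen_ball.measurableSet.compl
    fun y hy => ker_le (not_lt.1 hy)).trans ?_)
  rw [setLIntegral_const]
  gcongr
  exact subset_univ _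

/-- Sets of finite area are negligible. -/
theorem np_of_lt_top (h : μH[2] S < ∞) : NP S := fun μ _ hμ => by
  refine le_antisymm (ENNReal.le_of_forall_pos_le_add fun ε hε _ => ?_) zero_le
  set c : ℝ≥0∞ := ε / (μH[2] S + 1)
  have hc : 0 < c := ENNReal.div_pos (by simpa using hε.ne') (by simpa using h.ne)
  have hc' : c ≠ ∞ := ENNReal.div_ne_top (by simp) (by simp)
  obtain ⟨δ, hδ, h1⟩ := hμ.ball_le hc hc'
  have h2 : c⁻¹ • μ ≤ μH[2] := by
    refine Measure.le_hausdorffMeasure 2 _ (ENNReal.ofReal (δ / 2)) (by simpa using hδ)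
      fun t ht => ?_
    rcases t.eq_empty_or_nonempty with rfl | ⟨x, hx⟩
    · simp
    have h3 : ediam t ≠ ∞ := ne_top_of_le_ne_top ENNReal.ofReal_ne_top ht
    have h4 : diam t < δ := (ENNReal.toReal_le_of_le_ofReal (by linarith) ht).trans_lt (by linarith)
    have h5 := (measure_mono fun y hy => mem_closedBall.2
      (dist_le_diam_of_mem (isBounded_iff_ediam_ne_top.2 h3) hy hx)).trans (h1 x _ h4)
    rw [diam, ENNReal.ofReal_toReal h3] at h5
    rw [Measure.smul_apply, smul_eq_mul, ENNReal.rpow_two, mul_comm, ← div_eq_mul_inv]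
    exact ENNReal.div_le_of_le_mul' h5
  have h3 := h2 S
  rw [Measure.smul_apply, smul_eq_mul, mul_comm, ← div_eq_mul_inv,
    ENNReal.div_le_iff hc.ne' hc'] at h3
  calc μ S ≤ (μH[2] S + 1) * c := h3.trans (by gcongr; exact le_self_add)
    _ ≤ 0 + ε := by rw [zero_add]; exact ENNReal.mul_div_le

/-- Countable unions of holomorphic curves are negligible. -/
theorem np_of_thin (h : LA.Thin 1 S) : NP S := by
  obtain ⟨B, φ, h1, h2, h3⟩ := h
  refine (np_iUnion fun j => ?_).mono h3
  have h4 : ∀ b ∈ B j, ∃ t ∈ 𝓝[B j] b, NP (φ j '' t) := fun b hb => by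
    obtain ⟨K, t, ht, hK⟩ := ((LA.ana (h1 j) (h2 j) b hb).contDiffAt (n := 1)).exists_lipschitzOnWith
    refine ⟨t ∩ closedBall b 1, mem_nhdsWithin_of_mem_nhds
      (inter_mem ht (closedBall_mem_nhds b one_pos)), np_of_lt_top ?_⟩
    refine ((hK.mono inter_subset_left).hausdorffMeasure_image_le (by norm_num)).trans_lt
      (ENNReal.mul_lt_top (ENNReal.rpow_lt_top_of_nonneg (by norm_num) (by simp)) ?_)
    have e : (2 : ℝ) = (Module.finrank ℝ (Fin 1 → ℂ) : ℝ) := by
      rw [Module.finrank_pi_fintype]; simp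
    rw [e]
    exact (measure_mono inter_subset_right).trans_lt (isCompact_closedBall b 1).measure_lt_top
  choose! t ht hn using h4
  obtain ⟨I, hI, hc, hB⟩ := TopologicalSpace.countable_cover_nhdsWithin ht
  refine (np_biUnion hc fun b hb => hn b (hI hb)).mono ?_
  simpa only [← image_iUnion] using image_mono hB

/-- Negligible sets are null for measures whose potential is finite almost everywhere. -/
theorem NP.null_of_pot (h : NP S) [IsFiniteMeasure μ] (hμ : ∀ᵐ x ∂μ, ∫⁻ y, ker x y ∂μ < ∞) :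
    μ S = 0 := by
  by_contra h0
  let r : ℕ → ℝ := fun n => 1 / ((n : ℝ) + 1)
  have hr : ∀ n, 0 < r n := fun n => by positivity
  have hra : Antitone r := fun n m hnm => Nat.one_div_le_one_div hnm
  let f : ℕ → E2 → ℝ≥0∞ := fun n x => ∫⁻ y in ball x (r n), ker x y ∂μ
  have hf : ∀ n, Measurable (f n) := fun n => by
    have := Measurable.lintegral_prod_right' (ν := μ) (measurable_ker.indicator
      (isOpen_lt (f := fun p : E2 × E2 => dist p.2 p.1) (g := fun _ => r n) (by fun_prop)
        continuous_const).measurableSet)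
    convert this using 2 with x
    simp only [f]
    rw [← lintegral_indicator isOpen_ball.measurableSet]
    rfl
  have hlim : ∀ᵐ x ∂μ, Tendsto (fun n => f n x) atTop (𝓝 0) := by
    filter_upwards [hμ] with x hx
    have h1 := tendsto_measure_iInter_atTop (μ := μ.withDensity (ker x))
      (s := fun n => ball x (r n)) (fun n => isOpen_ball.measurableSet.nullMeasurableSet)
      (fun n m hnm => ball_subset_ball (hra hnm)) ⟨0, by
        rw [withDensity_apply _ isOpen_ball.measurableSet]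
        exact ((setLIntegral_le_lintegral _ _).trans_lt hx).ne⟩
    have h2 : μ.withDensity (ker x) (⋂ n, ball x (r n)) = 0 := by
      refine withDensity_absolutelyContinuous _ _ (measure_mono_null (fun y hy => ?_)
        (ae_iff.1 (ae_lt_top (measurable_ker' x) hx.ne)))
      have : dist y x ≤ 0 := ge_of_tendsto' tendsto_one_div_add_atTop_nhds_zero_nat
        fun n => (mem_ball.1 (mem_iInter.1 hy n)).le
      simpa using le_ker this
    rw [h2] at h1
    exact h1.congr fun n => withDensity_apply _ isOpen_ball.measurableSet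
  obtain ⟨e, he, hes⟩ := ENNReal.exists_pos_sum_of_countable' h0 ℕ
  have hn : ∀ k : ℕ, ∃ n, μ {x | (k : ℝ≥0∞)⁻¹ < f n x} < e k := fun k => by
    have h1 := tendsto_measure_iInter_atTop (μ := μ) (s := fun n => {x | (k : ℝ≥0∞)⁻¹ < f n x})
      (fun n => (measurableSet_lt measurable_const (hf n)).nullMeasurableSet)
      (fun n m hnm x hx => lt_of_lt_of_le hx (lintegral_mono_set (ball_subset_ball (hra hnm))))
      ⟨0, measure_ne_top _ _⟩
    have h2 : μ (⋂ n, {x | (k : ℝ≥0∞)⁻¹ < f n x}) = 0 := by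
      refine measure_mono_null (fun x hx => ?_) (ae_iff.1 hlim)
      intro hx'
      obtain ⟨n, hn⟩ := (hx'.eventually (gt_mem_nhds (ENNReal.inv_pos.2
        (ENNReal.natCast_ne_top k)))).exists
      exact lt_asymm hn (mem_iInter.1 hx n)
    rw [h2] at h1
    exact (h1.eventually (gt_mem_nhds (he k))).exists
  choose n hn using hn
  obtain ⟨O, hO, hOo, hOl⟩ := (⋃ k : ℕ, {x | (k : ℝ≥0∞)⁻¹ < f (n k) x}).exists_isOpen_lt_of_lt
    (μ := μ) _ ((measure_iUnion_le _).trans_lt
      ((ENNReal.tsum_le_tsum fun k => (hn k).le).trans_lt hes))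
  have hK : Kato (μ.restrict Oᶜ) := fun ε hε => by
    obtain ⟨k, hk⟩ := ENNReal.exists_inv_nat_lt (ENNReal.div_pos hε.ne' (by simp : (4 : ℝ≥0∞) ≠ ∞)).ne'
    refine ⟨r (n k) / 2, half_pos (hr _), fun x => ?_⟩
    rw [Measure.restrict_restrict isOpen_ball.measurableSet]
    rcases (ball x (r (n k) / 2) ∩ Oᶜ).eq_empty_or_nonempty with h1 | ⟨z, hz⟩
    · simp [h1]
    obtain ⟨x', hx', hd⟩ := hOo.isClosed_compl.exists_infDist_eq_dist ⟨z, hz.2⟩ x
    have h2 : ∀ y ∈ Oᶜ, dist y x' ≤ 2 * dist y x := fun y hy => by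
      have := infDist_le_dist_of_mem (x := x) hy
      linarith [dist_triangle y x x', dist_comm x y]
    have h3 : f (n k) x' ≤ (k : ℝ≥0∞)⁻¹ := not_lt.1 fun h4 => hx' (hO (mem_iUnion.2 ⟨k, h4⟩))
    calc _ ≤ ∫⁻ y in ball x (r (n k) / 2) ∩ Oᶜ, 4 * ker x' y ∂μ := by
          refine setLIntegral_mono' (isOpen_ball.measurableSet.inter hOo.measurableSet.compl)
            fun y hy => (ker_le (r := dist y x' / 2) (by linarith [h2 y hy.2])).trans ?_
          rw [ker, ← ofReal_norm, ← dist_eq_norm, dist_comm x', ENNReal.ofReal_div_of_pos two_pos,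
            div_eq_mul_inv, mul_pow, ENNReal.mul_inv (by simp) (by simp), mul_comm, ← ENNReal.inv_pow]
          norm_num
      _ ≤ 4 * f (n k) x' := by
          rw [lintegral_const_mul _ (measurable_ker' x')]
          gcongr
          refine lintegral_mono_set fun y hy => ?_
          have := h2 y hy.2
          exact mem_ball.2 (by linarith [mem_ball.1 hy.1])
      _ ≤ 4 * (ε / 4) := by gcongr; exact h3.trans hk.le
      _ ≤ ε := ENNReal.mul_div_le
  have h1 := h _ inferInstance hK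
  rw [Measure.restrict_apply' hOo.measurableSet.compl] at h1
  refine hOl.not_ge ((measure_mono (t := S ∩ Oᶜ ∪ O) fun x hx => ?_).trans
    ((measure_union_le _ _).trans (by rw [h1, zero_add])))
  by_cases hx' : x ∈ O
  · exact Or.inr hx'
  · exact Or.inl ⟨hx, hx'⟩

theorem NP.null_of_fro (h : NP S) [IsFiniteMeasure μ] {s : ℝ} (hs : 2 < s) {C : ℝ≥0∞}
    (hC : C ≠ ∞) (hμ : GM.Fro s C μ) : μ S = 0 := by
  refine h.null_of_pot (Eventually.of_forall fun x => ?_)
  simp only [ker_eq]
  refine (GM.Fro.pot_le (C := C + μ univ) (t := s) two_pos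
    (fun x r hr => (hμ x r hr).trans (by gcongr; exact le_self_add)) le_add_self x).trans_lt ?_
  exact ENNReal.mul_lt_top (ENNReal.add_lt_top.2 ⟨hC.lt_top, measure_lt_top _ _⟩)
    (GM.potC_ne_top (by norm_num) hs).lt_top

/-- A locally closed negligible set has Hausdorff dimension at most two. -/
theorem NP.hnull {D W : Set E2} (h : NP (D \ W)) (hD : IsOpen D) (hW : IsOpen W) {s : ℝ}
    (hs : 2 < s) : μH[s] (D \ W) = 0 :=
  GM.null_of_fro (by linarith) hD hW fun K ν C _ hK _ h0 hC hF => by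
    have := measure_union_null ((h.mono hK).null_of_fro hs hC hF) h0
    simp at this

theorem NP.volume (h : NP S) : volume S = 0 :=
  measure_null_of_locally_null _ fun x _ => ⟨S ∩ closedBall x 1,
    inter_mem_nhdsWithin _ (closedBall_mem_nhds x one_pos), by
      have : Fact (MeasureTheory.volume (closedBall x 1) < ∞) :=
        ⟨(isCompact_closedBall x 1).measure_lt_top⟩
      rw [← Measure.restrict_apply' isClosed_closedBall.measurableSet]
      exact h.null_of_fro (by rw [finrank_E2]; norm_num) (isCompact_closedBall 0 1).measure_lt_top.ne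
        ((GM.fro_haar MeasureTheory.volume).restrict _)⟩

end Pool.Agent.Lib.MP_823829_an.PT
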