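import Pool.Agent.Lib.MP_823829_an.PT.Sub
import Pool.Agent.Lib.MP_823829_an.PT.NP

/-! Negligible compact sets are polar; Newton potentials of Kato measures. -/

namespace Pool.Agent.Lib.MP_823829_an.PT

open Set Filter Topology Metric MeasureTheory
open scoped ENNReal NNReal CompactlySupported

/-- Duality: a convex set of continuous functions which contains the regularised kernels centred
on a negligible compact set `Q` has members which are large on `Q`. -/
theorem NP.pol {Q : Set E2} (h : NP Q) (hQ : IsCompact Q) {P : Set (E2 → ℝ)} (hP : Convex ℝ P)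
    (hc : ∀ p ∈ P, Continuous p) (hne : P.Nonempty)
    (hk : ∀ c ∈ Q, ∀ η > 0, (fun y => (nsq (y - c) + η)⁻¹) ∈ P) (L : ℝ) :
    ∃ p ∈ P, ∀ x ∈ Q, L < p x := by
  by_contra hn
  have : CompactSpace Q := isCompact_iff_compactSpace.1 hQ
  let rs : ∀ p ∈ P, C(Q, ℝ) := fun p hp => ⟨fun x => p x, (hc p hp).comp continuous_subtype_val⟩
  obtain ⟨f, u, h1, h2⟩ := geometric_hahn_banach_open
    (s := {g : C(Q, ℝ) | MapsTo g univ (Ioi L)}) (t := {g : C(Q, ℝ) | ∃ p ∈ P, ∀ x : Q, g x = p x})
    (fun a ha b hb s t hs ht hst x hx => convex_Ioi L (ha hx) (hb hx) hs ht hst)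
    (ContinuousMap.isOpen_setOfPred_mapsTo isCompact_univ isOpen_Ioi)
    (fun a ⟨p, hp, ha⟩ b ⟨q, hq, hb⟩ s t hs ht hst =>
      ⟨_, hP hp hq hs ht hst, fun x => by simp [ha, hb]⟩)
    (disjoint_left.2 fun g hg ⟨p, hp, hgp⟩ => hn ⟨p, hp, fun x hx => by
      have := hg (mem_univ ⟨x, hx⟩); rwa [hgp] at this⟩)
  have hpos : ∀ g : C(Q, ℝ), (∀ x, 0 ≤ g x) → f g ≤ 0 := fun g hg => by
    by_contra! h3
    have h4 := h1 (ContinuousMap.const Q (L + 1)
      + (|u - f (ContinuousMap.const Q (L + 1))| / f g) • g) fun x _ => by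
        have := mul_nonneg (div_nonneg (abs_nonneg (u - f (ContinuousMap.const Q (L + 1)))) h3.le)
          (hg x)
        simp only [ContinuousMap.add_apply, ContinuousMap.const_apply, ContinuousMap.smul_apply,
          smul_eq_mul, mem_Ioi]
        linarith
    rw [map_add, map_smul, smul_eq_mul, div_mul_cancel₀ _ h3.ne'] at h4
    linarith [le_abs_self (u - f (ContinuousMap.const Q (L + 1)))]
  let Λ : C_c(Q, ℝ) →ₚ[ℝ] ℝ := PositiveLinearMap.mk₀
    { toFun := fun g => -f g.toContinuousMap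
      map_add' := fun a b => by rw [← neg_add, ← map_add]; rfl
      map_smul' := fun c a => by rw [RingHom.id_apply, smul_neg, ← map_smul]; rfl }
    fun g hg => neg_nonneg.2 (hpos _ hg)
  let ν := RealRMK.rieszMeasure Λ
  have hν : ∀ g : C(Q, ℝ), ∫ x, g x ∂ν = -f g := fun g =>
    RealRMK.integral_rieszMeasure Λ ⟨g, HasCompactSupport.of_compactSpace _⟩
  have hQm := hQ.isClosed.measurableSet
  have h0 : ν.map Subtype.val Q = 0 := by
    refine h.null_of_pot ((ae_map_iff measurable_subtype_coe.aemeasurable (measurableSet_lt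
      (Measurable.lintegral_prod_right' measurable_ker) measurable_const)).2
      (Eventually.of_forall fun c => ?_))
    rw [lintegral_map (measurable_ker' _) measurable_subtype_coe]
    let k : ℕ → Q → ℝ≥0∞ := fun n y => (ENNReal.ofReal (‖c.1 - y‖ ^ 2 + 1 / ((n : ℝ) + 1)))⁻¹
    have h3 : ∀ y : Q, ker c y = liminf (fun n => k n y) atTop := fun y => by
      refine (Tendsto.liminf_eq ?_).symm
      rw [ker, ← ofReal_norm, ← ENNReal.ofReal_pow (norm_nonneg _)]
      refine (ENNReal.tendsto_ofReal ?_).inv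
      simpa using tendsto_one_div_add_atTop_nhds_zero_nat.const_add (‖c.1 - y‖ ^ 2)
    simp only [h3]
    refine ((lintegral_liminf_le fun n => by fun_prop).trans (liminf_le_of_frequently_le'
      (Frequently.of_forall fun n => ?_))).trans_lt
      (ENNReal.ofReal_lt_top (r := 2 * -u))
    have hη : (0 : ℝ) < 1 / ((n : ℝ) + 1) := by positivity
    let g := rs _ (hk c c.2 _ hη)
    have hg : ∀ y, 0 ≤ g y := fun y => inv_nonneg.2 (add_nonneg (nsq_nonneg _) hη.le)
    have hi : Integrable g ν := (BoundedContinuousFunction.mkOfCompact g).integrable ν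
    calc ∫⁻ y, k n y ∂ν ≤ ∫⁻ y, ENNReal.ofReal (2 * g y) ∂ν := lintegral_mono fun y => by
          have h4 := nsq_le (y - c.1)
          have h5 := nsq_nonneg (y - c.1)
          rw [norm_sub_rev] at h4
          simp only [k]
          rw [← ENNReal.ofReal_inv_of_pos (by positivity)]
          refine ENNReal.ofReal_le_ofReal ?_
          change _ ≤ 2 * (nsq (y - c.1) + 1 / ((n : ℝ) + 1))⁻¹
          rw [← div_eq_mul_inv, inv_eq_one_div, div_le_div_iff₀ (by positivity) (by positivity)]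
          linarith
      _ = ENNReal.ofReal (2 * -f g) := by
          rw [← hν, ← integral_const_mul, ofReal_integral_eq_lintegral_ofReal (hi.const_mul 2)
            (Eventually.of_forall fun y => mul_nonneg zero_le_two (hg y))]
      _ ≤ _ := ENNReal.ofReal_le_ofReal (by linarith [h2 g ⟨_, hk c c.2 _ hη, fun _ => rfl⟩])
  rw [Measure.map_apply measurable_subtype_coe hQm, Subtype.coe_preimage_self,
    Measure.measure_univ_eq_zero] at h0
  simp only [h0, integral_zero_measure, zero_eq_neg] at hν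
  obtain ⟨p, hp⟩ := hne
  have h5 := h1 (ContinuousMap.const Q (L + 1)) fun x _ => by simp
  have h6 := h2 (rs p hp) ⟨p, hp, fun _ => rfl⟩
  rw [hν] at h5 h6
  linarith

variable {μ : Measure E2} [IsFiniteMeasure μ]

theorem ofReal_le_ker (x y : E2) : ENNReal.ofReal (nsq (x - y))⁻¹ ≤ ker x y := by
  refine ENNReal.ofReal_inv_le.trans ?_
  rw [ker, ← ofReal_norm, ← ENNReal.ofReal_pow (norm_nonneg _)]
  exact ENNReal.inv_le_inv.2 (ENNReal.ofReal_le_ofReal (sq_le_nsq _))

theorem Kato.integrable (h : Kato μ) (x : E2) : Integrable (fun y => (nsq (x - y))⁻¹) μ := by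
  obtain ⟨M, hM, h1⟩ := h.lintegral_lt
  have := continuous_nsq
  refine ⟨(Measurable.inv (Continuous.measurable (by fun_prop))).aestronglyMeasurable,
    lt_of_le_of_lt (lintegral_mono fun y => ?_) ((h1 x).trans_lt hM)⟩
  rw [← ofReal_norm, Real.norm_of_nonneg (inv_nonneg.2 (nsq_nonneg _))]
  exact ofReal_le_ker x y

omit [IsFiniteMeasure μ] in
theorem Kato.ae_ne (h : Kato μ) (x : E2) : ∀ᵐ y ∂μ, y ≠ x := by
  obtain ⟨δ, hδ, h1⟩ := h.ball_le one_pos ENNReal.one_ne_top
  simpa [ae_iff] using h1 x 0 hδ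

theorem Kato.continuous_pot (h : Kato μ) : Continuous (pot μ) := by
  have hn := continuous_nsq
  refine continuous_of_uniform_approx_of_continuous fun u hu => ?_
  obtain ⟨ε, hε, h1⟩ := Metric.mem_uniformity_dist.1 hu
  obtain ⟨δ, hδ, h2⟩ := h (ENNReal.ofReal (ε / 2)) (by simpa using hε)
  have hm : ∀ z, 0 < max (nsq z) (δ ^ 2) := fun z => lt_max_of_lt_right (by positivity)
  have hb : ∀ z, ‖(max (nsq z) (δ ^ 2))⁻¹‖ ≤ (δ ^ 2)⁻¹ := fun z => by
    rw [Real.norm_of_nonneg (inv_nonneg.2 (hm z).le)]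
    exact inv_anti₀ (by positivity) (le_max_right _ _)
  have hc : ∀ x, Continuous fun y => (max (nsq (x - y)) (δ ^ 2))⁻¹ := fun x =>
    Continuous.inv₀ (by fun_prop) fun y => (hm _).ne'
  refine ⟨fun x => ∫ y, (max (nsq (x - y)) (δ ^ 2))⁻¹ ∂μ, continuous_of_dominated
    (fun x => (hc x).aestronglyMeasurable) (fun x => Eventually.of_forall fun y => hb _)
    (integrable_const _) (Eventually.of_forall fun y =>
      Continuous.inv₀ (by fun_prop) fun x => (hm _).ne'), fun x => h1 ?_⟩
  rw [dist_eq_norm, pot, ← integral_sub (h.integrable x) (Integrable.of_bound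
    (hc x).aestronglyMeasurable _ (Eventually.of_forall fun y => hb _))]
  refine ((norm_integral_le_lintegral_norm _).trans (ENNReal.toReal_le_of_le_ofReal
    (by linarith) (le_trans ?_ (h2 x)))).trans_lt (half_lt_self hε)
  rw [← lintegral_indicator isOpen_ball.measurableSet]
  refine lintegral_mono_ae ((h.ae_ne x).mono fun y hy => ?_)
  have h3 := sq_le_nsq (x - y)
  by_cases h4 : y ∈ ball x δ
  · have h5 : 0 < nsq (x - y) := (pow_pos (norm_pos_iff.2 (sub_ne_zero.2 hy.symm)) 2).trans_le h3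
    have h6 := inv_anti₀ h5 (le_max_left _ (δ ^ 2))
    rw [indicator_of_mem h4, Real.norm_of_nonneg (sub_nonneg.2 h6)]
    exact (ENNReal.ofReal_le_ofReal (sub_le_self _ (inv_nonneg.2 (hm _).le))).trans
      (ofReal_le_ker x y)
  · rw [mem_ball', dist_eq_norm, not_lt] at h4
    rw [max_eq_left (le_trans (by gcongr) h3)]
    simp

theorem Kato.sub_pot (h : Kato μ) {K : Set E2} (hK : IsClosed K) (h0 : μ Kᶜ = 0) {x : E2}
    (hx : x ∉ K) : Sub (pot μ) x 0 := fun κ hκ => by
  obtain ⟨δ, hδ, h1⟩ := Metric.isOpen_iff.1 hK.isOpen_compl x hx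
  have ht : Tendsto (fun t : ℝ => 16 * t ^ 2 / δ ^ 6 * μ.real univ) (𝓝 0) (𝓝 0) :=
    Continuous.tendsto' (by fun_prop) _ _ (by simp)
  filter_upwards [nhdsWithin_le_nhds (ht.eventually (gt_mem_nhds hκ)),
    nhdsWithin_le_nhds (ball_mem_nhds (0 : ℝ) hδ)] with t h2 h3
  have hi : ∀ d, Integrable (fun y => (nsq (x + t • dir d - y))⁻¹ + (nsq (x - t • dir d - y))⁻¹
      - 2 * (nsq (x - y))⁻¹) μ := fun d =>
    ((h.integrable _).add (h.integrable _)).sub ((h.integrable _).const_mul 2)
  have e : dlap (pot μ) x t = ∫ y, ∑ d, ((nsq (x + t • dir d - y))⁻¹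
      + (nsq (x - t • dir d - y))⁻¹ - 2 * (nsq (x - y))⁻¹) ∂μ := by
    rw [integral_finsetSum _ fun d _ => hi d]
    refine Finset.sum_congr rfl fun d _ => ?_
    rw [integral_sub (by exact (h.integrable _).add (h.integrable _))
      ((h.integrable _).const_mul 2), integral_add (h.integrable _) (h.integrable _),
      integral_const_mul]
    rfl
  have h4 : ∫ _, -(16 * t ^ 4 / δ ^ 6) ∂μ ≤ dlap (pot μ) x t := by
    rw [e]
    refine integral_mono_ae (integrable_const _) (integrable_finsetSum _ fun d _ => hi d)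
      ((show ∀ᵐ y ∂μ, y ∈ K from h0).mono fun y hy => ?_)
    have h5 : δ ≤ ‖x - y‖ := by
      rw [← dist_eq_norm, dist_comm]; exact not_lt.1 fun h6 => h1 h6 hy
    refine (dlap_ker hδ h5 (by simpa using h3)).trans_eq (Finset.sum_congr rfl fun d _ => ?_)
    simp only [add_sub_right_comm x, sub_right_comm x _ y]
  rw [integral_const, smul_eq_mul] at h4
  refine le_trans ?_ h4
  have : μ.real univ * -(16 * t ^ 4 / δ ^ 6) = -(16 * t ^ 2 / δ ^ 6 * μ.real univ) * t ^ 2 := by
    ring
  rw [this]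
  nlinarith [sq_nonneg t]

theorem Kato.le_pot (h : Kato μ) {x : E2} {D : ℝ} (hD : ∀ᵐ y ∂μ, nsq (x - y) ≤ D) :
    μ.real univ / D ≤ pot μ x := by
  have : ∫ _, D⁻¹ ∂μ ≤ pot μ x := by
    refine integral_mono_ae (integrable_const _) (h.integrable x) ?_
    filter_upwards [hD, h.ae_ne x] with y h1 h2
    exact inv_anti₀ ((pow_pos (norm_pos_iff.2 (sub_ne_zero.2 h2.symm)) 2).trans_le
      (sq_le_nsq _)) h1
  rwa [integral_const, smul_eq_mul, ← div_eq_mul_inv] at this

theorem Kato.pot_le (h : Kato μ) {x : E2} {D : ℝ} (h0 : 0 < D) (hD : ∀ᵐ y ∂μ, D ≤ nsq (x - y)) :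
    pot μ x ≤ μ.real univ / D := by
  have : pot μ x ≤ ∫ _, D⁻¹ ∂μ :=
    integral_mono_ae (h.integrable x) (integrable_const _) (hD.mono fun y h1 => inv_anti₀ h0 h1)
  rwa [integral_const, smul_eq_mul, ← div_eq_mul_inv] at this

/-- The barrier attached to a Kato measure which charges `K` near `c`: a continuous function which
is subharmonic off `K`, negative far from `c`, and positive near `c`. -/
theorem barrier {K : Set E2} (hK : IsClosed K) {c : E2} {η : ℝ} (hη : 0 < η)
    (h : ¬ NP (K ∩ closedBall c η)) :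
    ∃ (u : E2 → ℝ) (κ : ℝ), 0 < κ ∧ Continuous u ∧ (∀ x ∉ K ∩ closedBall c η, Sub u x 0) ∧
      (∀ x ∉ ball c (8 * η), u x ≤ 0) ∧ ∀ x ∈ closedBall c (2 * η), κ ≤ u x := by
  simp only [NP, not_forall] at h
  obtain ⟨μ, _, hμ, h0⟩ := h
  have hc := hK.inter (isClosed_closedBall (x := c) (ε := η))
  set ν := μ.restrict (K ∩ closedBall c η)
  have hν : Kato ν := hμ.restrict _
  have h1 : ∀ᵐ y ∂ν, y ∈ K ∩ closedBall c η := ae_restrict_mem hc.measurableSet
  have hm : 0 < ν.real univ := ENNReal.toReal_pos (by simpa [ν] using h0) (measure_ne_top _ _)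
  refine ⟨fun x => pot ν x + -(ν.real univ / (7 * η) ^ 2),
    ν.real univ / (2 * (3 * η) ^ 2) - ν.real univ / (7 * η) ^ 2, sub_pos.2 ?_,
    hν.continuous_pot.add continuous_const, fun x hx => ?_, fun x hx => ?_, fun x hx => ?_⟩
  · exact div_lt_div_of_pos_left hm (by positivity) (by nlinarith)
  · simpa using (hν.sub_pot hc h1 hx).add (sub_const _ x)
  · refine add_neg_nonpos_iff.2 (hν.pot_le (by positivity) (h1.mono fun y hy => ?_))
    refine le_trans ?_ (sq_le_nsq _)
    have h2 := not_lt.1 (mt mem_ball.2 hx)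
    have h3 := dist_triangle x y c
    have h4 := mem_closedBall.1 hy.2
    rw [← dist_eq_norm]
    gcongr
    linarith
  · refine add_le_add (hν.le_pot (h1.mono fun y hy => (nsq_le _).trans ?_)) le_rfl
    have h3 := dist_triangle_right x y c
    have h4 := mem_closedBall.1 hy.2
    have h5 := mem_closedBall.1 hx
    rw [← dist_eq_norm]
    gcongr
    linarith

end Pool.Agent.Lib.MP_823829_an.PT
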