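import Pool.Agent.Lib.MP_823829_an.PT.Defs

/-! Second differences and the maximum principle. -/

namespace Pool.Agent.Lib.MP_823829_an.PT

open Set Filter Topology Metric

theorem nsq_nonneg (x : E2) : 0 ≤ nsq x := by unfold nsq; positivity

theorem continuous_nsq : Continuous nsq := by unfold nsq; fun_prop

theorem sq_le_nsq (x : E2) : ‖x‖ ^ 2 ≤ nsq x := by
  have h : ‖x‖ ≤ √(nsq x) := (pi_norm_le_iff_of_nonneg (Real.sqrt_nonneg _)).2 fun i => by
    refine Real.le_sqrt_of_sq_le ?_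
    fin_cases i <;> simp [nsq]
  calc ‖x‖ ^ 2 ≤ √(nsq x) ^ 2 := by gcongr
    _ = _ := Real.sq_sqrt (nsq_nonneg x)

theorem nsq_le (x : E2) : nsq x ≤ 2 * ‖x‖ ^ 2 := by
  have h0 := pow_le_pow_left₀ (norm_nonneg _) (norm_le_pi_norm x 0) 2
  have h1 := pow_le_pow_left₀ (norm_nonneg _) (norm_le_pi_norm x 1) 2
  unfold nsq; linarith

theorem norm_dir (d : Fin 2 × Fin 2) : ‖dir d‖ = 1 := by simp [dir, Pi.norm_single]

/-- real coordinates -/
noncomputable def ip (d : Fin 2 × Fin 2) (x : E2) : ℝ :=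
  if d.2 = 0 then (x d.1).re else (x d.1).im

theorem nsq_add (x : E2) (t : ℝ) (d : Fin 2 × Fin 2) :
    nsq (x + t • dir d) = nsq x + 2 * ip d x * t + t ^ 2 := by
  obtain ⟨j, k⟩ := d
  fin_cases j <;> fin_cases k <;>
    simp [nsq, dir, ip, Complex.sq_norm, Complex.normSq_apply] <;> ring

theorem sum_ip (x : E2) : ∑ d, ip d x ^ 2 = nsq x := by
  simp [Fintype.sum_prod_type, Fin.sum_univ_two, ip, nsq, Complex.sq_norm, Complex.normSq_apply]
  ring

theorem dlap_add (s s' : E2 → ℝ) (x : E2) (t : ℝ) :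
    dlap (fun y => s y + s' y) x t = dlap s x t + dlap s' x t := by
  simp only [dlap, ← Finset.sum_add_distrib]
  exact Finset.sum_congr rfl fun d _ => by ring

theorem dlap_mul (a : ℝ) (s : E2 → ℝ) (x : E2) (t : ℝ) :
    dlap (fun y => a * s y) x t = a * dlap s x t := by
  simp only [dlap, Finset.mul_sum]
  exact Finset.sum_congr rfl fun d _ => by ring

variable {s s' : E2 → ℝ} {x : E2} {c c' : ℝ}

theorem Sub.mono (h : Sub s x c) (hc : c' ≤ c) : Sub s x c' := fun κ hκ =>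
  (h κ hκ).mono fun t ht => le_trans (by gcongr) ht

theorem Sub.add (h : Sub s x c) (h' : Sub s' x c') : Sub (fun y => s y + s' y) x (c + c') :=
  fun κ hκ => by
  filter_upwards [h (κ / 2) (by linarith), h' (κ / 2) (by linarith)] with t h1 h2
  rw [dlap_add]; linarith

theorem Sub.mul (h : Sub s x c) {a : ℝ} (ha : 0 ≤ a) : Sub (fun y => a * s y) x (a * c) :=
  fun κ hκ => by
  filter_upwards [h (κ / (a + 1)) (by positivity)] with t h1
  rw [dlap_mul]
  have h2 : a * (κ / (a + 1)) ≤ κ := by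
    rw [← mul_div_assoc, div_le_iff₀ (by linarith)]; nlinarith
  nlinarith [mul_le_mul_of_nonneg_left h1 ha, mul_le_mul_of_nonneg_right h2 (sq_nonneg t)]

theorem sub_const (a : ℝ) (x : E2) : Sub (fun _ => a) x 0 := fun κ hκ =>
  Eventually.of_forall fun t => by
    have : dlap (fun _ => a) x t = 0 := by simp [dlap, two_mul]
    rw [this]; nlinarith [sq_nonneg t]

theorem tendsto_dir (x : E2) (d : Fin 2 × Fin 2) :
    Tendsto (fun t : ℝ => x + t • dir d) (𝓝 0) (𝓝 x) ∧
      Tendsto (fun t : ℝ => x - t • dir d) (𝓝 0) (𝓝 x) := by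
  constructor <;> refine Continuous.tendsto' (by fun_prop) _ _ (by simp)

theorem eventually_dir {p : E2 → Prop} (h : ∀ᶠ y in 𝓝 x, p y) :
    ∀ᶠ t in 𝓝[>] (0 : ℝ), ∀ d, p (x + t • dir d) ∧ p (x - t • dir d) :=
  nhdsWithin_le_nhds (eventually_all.2 fun d =>
    ((tendsto_dir x d).1.eventually h).and ((tendsto_dir x d).2.eventually h))

theorem Sub.congr (h : Sub s x c) (he : s =ᶠ[𝓝 x] s') : Sub s' x c := fun κ hκ => by
  filter_upwards [h κ hκ, eventually_dir he] with t h1 h2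
  refine h1.trans_eq (Finset.sum_congr rfl fun d _ => ?_)
  rw [(h2 d).1, (h2 d).2, he.eq_of_nhds]

/-- Criterion by derivatives along the four directions. -/
theorem sub_of_deriv {φ : Fin 2 × Fin 2 → ℝ → ℝ} {c : Fin 2 × Fin 2 → ℝ}
    (h1 : ∀ d, ∀ᶠ t in 𝓝 (0 : ℝ), HasDerivAt (fun t : ℝ => s (x + t • dir d)) (φ d t) t)
    (h2 : ∀ d, HasDerivAt (φ d) (c d) 0) : Sub s x (∑ d, c d) := fun κ hκ => by
  set C := ∑ d, c d - κ
  let F : ℝ → ℝ := fun t => dlap s x t - C * t ^ 2
  have hn : Tendsto (fun t : ℝ => -t) (𝓝 0) (𝓝 0) :=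
    Continuous.tendsto' (by fun_prop) _ _ (by simp)
  have hF : ∀ᶠ t in 𝓝 (0 : ℝ), HasDerivAt F (∑ d, (φ d t - φ d (-t)) - C * (2 * t)) t := by
    filter_upwards [eventually_all.2 h1, hn.eventually (eventually_all.2 h1)] with t a1 a2
    refine HasDerivAt.sub (HasDerivAt.fun_sum fun d _ => ?_)
      (((hasDerivAt_pow 2 t).const_mul C).congr_deriv (by simp))
    have a3 := (a2 d).comp t (hasDerivAt_neg t)
    refine (((a1 d).add a3).sub_const (2 * s x)).congr_deriv (by ring) |>.congr_of_eventuallyEq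
      (Eventually.of_forall fun u => ?_)
    simp [sub_eq_add_neg]
  have hd : deriv F =ᶠ[𝓝 0] fun t => ∑ d, (φ d t - φ d (-t)) - C * (2 * t) :=
    hF.mono fun t ht => ht.deriv
  have hd2 : HasDerivAt (fun t => ∑ d, (φ d t - φ d (-t)) - C * (2 * t))
      (∑ d, (c d + c d) - C * 2) 0 := by
    refine HasDerivAt.sub (HasDerivAt.fun_sum fun d _ => ?_)
      (((hasDerivAt_id (0 : ℝ)).const_mul 2).const_mul C |>.congr_deriv (by simp))
    have a3 : HasDerivAt (φ d) (c d) (-0) := by simpa using h2 d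
    exact ((h2 d).sub (a3.comp 0 (hasDerivAt_neg 0))).congr_deriv (by ring)
  have hm := isLocalMin_of_deriv_deriv_pos (f := F) (x₀ := 0) (by
    rw [hd.deriv_eq, hd2.deriv, Finset.sum_add_distrib]; simp only [C]; linarith)
    (by rw [hd.eq_of_nhds]; simp) hF.self_of_nhds.continuousAt
  filter_upwards [nhdsWithin_le_nhds hm] with t ht
  have : F 0 = 0 := by simp [F, dlap, two_mul]
  simp only [this, F] at ht
  linarith

theorem hasDerivAt_line (x v : E2) (t : ℝ) : HasDerivAt (fun t : ℝ => x + t • v) v t := by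
  simpa using ((hasDerivAt_id t).smul_const v).const_add x

theorem sub_lap (h : ContDiffAt ℝ 2 s x) : Sub s x (lap s x) := by
  refine sub_of_deriv (φ := fun d t => fderiv ℝ s (x + t • dir d) (dir d))
    (c := fun d => fderiv ℝ (fun y => fderiv ℝ s y (dir d)) x (dir d)) (fun d => ?_) fun d => ?_
  · filter_upwards [(tendsto_dir x d).1.eventually (h.eventually (by simp))] with t ht
    exact (ht.differentiableAt two_ne_zero).hasFDerivAt.comp_hasDerivAt t (hasDerivAt_line x _ t)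
  · have h1 : DifferentiableAt ℝ (fun y => fderiv ℝ s y (dir d)) (x + (0 : ℝ) • dir d) := by
      rw [zero_smul, add_zero]
      exact ((h.fderiv_right (m := 1) (by norm_num)).differentiableAt one_ne_zero).clm_apply
        (differentiableAt_const _)
    have h2 := h1.hasFDerivAt.comp_hasDerivAt (0 : ℝ) (hasDerivAt_line x (dir d) 0)
    rw [zero_smul, add_zero] at h2
    exact h2

theorem sub_nsq (z x : E2) : Sub (fun y => nsq (y - z)) x 8 := fun κ hκ =>
  Eventually.of_forall fun t => by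
    have : dlap (fun y => nsq (y - z)) x t = ∑ _d : Fin 2 × Fin 2, 2 * t ^ 2 := by
      refine Finset.sum_congr rfl fun d _ => ?_
      have h1 := nsq_add (x - z) t d
      have h2 := nsq_add (x - z) (-t) d
      rw [neg_smul, ← sub_eq_add_neg] at h2
      simp only [add_sub_right_comm x, sub_right_comm x _ z, h1, h2]
      ring
    rw [this]
    simp only [Finset.sum_const, Finset.card_univ, Fintype.card_prod, Fintype.card_fin,
      nsmul_eq_mul]
    push_cast
    nlinarith [sq_nonneg t]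

/-- The real part of a holomorphic function. -/
theorem sub_re {H : E2 → ℂ} (h : AnalyticAt ℂ H x) : Sub (fun y => (H y).re) x 0 := by
  let g : Fin 2 → ℂ → ℂ := fun j w => H (x + w • Pi.single j 1)
  have hg : ∀ j, AnalyticAt ℂ (g j) 0 := fun j =>
    AnalyticAt.comp_of_eq (g := H) (f := fun w : ℂ => x + w • Pi.single j 1) h (by fun_prop)
      (by simp)
  have key : ∀ (u : ℂ) (f : ℂ → ℂ) (t : ℝ), DifferentiableAt ℂ f (u * t) →
      HasDerivAt (fun t : ℝ => (f (u * t))) (deriv f (u * t) * u) t := fun u f t hf => by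
    have := (hf.hasDerivAt.comp (t : ℂ) ((hasDerivAt_id (t : ℂ)).const_mul u)).comp_ofReal
    simpa using this
  have := sub_of_deriv (s := fun y => (H y).re) (x := x)
    (φ := fun d t => (deriv (g d.1) (Complex.I ^ (d.2 : ℕ) * t) * Complex.I ^ (d.2 : ℕ)).re)
    (c := fun d => (deriv (deriv (g d.1)) 0 * Complex.I ^ (d.2 : ℕ) * Complex.I ^ (d.2 : ℕ)).re)
    (fun d => ?_) fun d => ?_
  · refine this.mono (le_of_eq ?_)
    simp [Fintype.sum_prod_type, Fin.sum_univ_two, mul_assoc]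
  · have ht : Tendsto (fun t : ℝ => Complex.I ^ (d.2 : ℕ) * t) (𝓝 0) (𝓝 0) :=
      Continuous.tendsto' (by fun_prop) _ _ (by simp)
    filter_upwards [ht.eventually (hg d.1).eventually_analyticAt] with t h1
    refine (Complex.reCLM.hasFDerivAt.comp_hasDerivAt t
      (key _ _ t h1.differentiableAt)).congr_of_eventuallyEq (Eventually.of_forall fun u => ?_)
    simp only [g, dir, Function.comp, Complex.reCLM_apply]
    congr 3
    ext i
    by_cases hi : i = d.1 <;> simp [hi, mul_comm]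
  · have h1 := key (Complex.I ^ (d.2 : ℕ)) (deriv (g d.1)) 0
      (by simpa using (hg d.1).deriv.differentiableAt)
    exact (Complex.reCLM.hasFDerivAt.comp_hasDerivAt (0 : ℝ)
      (h1.mul_const (Complex.I ^ (d.2 : ℕ)))).congr_deriv (by simp)

/-- The regularised kernel is superharmonic. -/
theorem sub_keta {η : ℝ} (hη : 0 < η) (z x : E2) : Sub (fun y => -(nsq (y - z) + η)⁻¹) x 0 := by
  set ρ := nsq (x - z)
  have hρ : 0 ≤ ρ := nsq_nonneg _
  have hq : ∀ d (t : ℝ), nsq (x + t • dir d - z) + η = ρ + 2 * ip d (x - z) * t + t ^ 2 + η :=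
    fun d t => by rw [add_sub_right_comm, nsq_add]
  have hp : ∀ d (t : ℝ), ρ + 2 * ip d (x - z) * t + t ^ 2 + η ≠ 0 := fun d t => by
    rw [← hq]; linarith [nsq_nonneg (x + t • dir d - z)]
  have hd : ∀ d (t : ℝ), HasDerivAt (fun t : ℝ => ρ + 2 * ip d (x - z) * t + t ^ 2 + η)
      (2 * ip d (x - z) + 2 * t) t := fun d t =>
    (((((hasDerivAt_id t).const_mul _).const_add ρ).add (hasDerivAt_pow 2 t)).add_const
      η).congr_deriv (by simp)
  have := sub_of_deriv (s := fun y => -(nsq (y - z) + η)⁻¹) (x := x)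
    (φ := fun d t => (2 * ip d (x - z) + 2 * t) / (ρ + 2 * ip d (x - z) * t + t ^ 2 + η) ^ 2)
    (c := fun d => 2 / (ρ + η) ^ 2 - 8 / (ρ + η) ^ 3 * ip d (x - z) ^ 2)
    (fun d => Eventually.of_forall fun t => ?_) fun d => ?_
  · refine this.mono ?_
    rw [Finset.sum_sub_distrib, ← Finset.mul_sum, sum_ip]
    simp only [Finset.sum_const, Finset.card_univ, Fintype.card_prod, Fintype.card_fin,
      nsmul_eq_mul]
    have : ((2 * 2 : ℕ) : ℝ) * (2 / (ρ + η) ^ 2) - 8 / (ρ + η) ^ 3 * ρ = 8 * η / (ρ + η) ^ 3 := by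
      push_cast; field_simp; ring
    rw [this]; positivity
  · simp only [hq]
    exact (((hd d t).inv (hp d t)).neg).congr_deriv (by ring)
  · have h1 := (((hasDerivAt_id (0 : ℝ)).const_mul 2).const_add (2 * ip d (x - z))).div
      ((hd d 0).pow 2) (pow_ne_zero 2 (hp d 0))
    refine h1.congr_deriv ?_
    have : ρ + η ≠ 0 := by linarith
    simp
    field_simp
    ring

/-- Second differences of the Newton kernel. -/
theorem dlap_ker {δ t : ℝ} {x : E2} (hδ : 0 < δ) (hx : δ ≤ ‖x‖) (ht : |t| < δ) :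
    -(16 * t ^ 4 / δ ^ 6) ≤ dlap (fun y => (nsq y)⁻¹) x t := by
  set ρ := nsq x
  have h1 : δ ^ 2 ≤ ρ := le_trans (by gcongr) (sq_le_nsq x)
  have hρ : 0 < ρ := lt_of_lt_of_le (by positivity) h1
  have hp : ∀ d (u : ℝ), |u| < δ → 0 < ρ + 2 * ip d x * u + u ^ 2 := fun d u hu => by
    rw [← nsq_add]
    refine lt_of_lt_of_le (pow_pos ?_ 2) (sq_le_nsq _)
    have := norm_sub_le (x + u • dir d) (u • dir d)
    rw [add_sub_cancel_right, norm_smul, norm_dir, Real.norm_eq_abs] at this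
    linarith
  set A := ρ + t ^ 2
  have hA : 0 < A := by positivity
  have h2 : ∑ d, (2 / A - 2 / ρ + 8 * t ^ 2 / A ^ 3 * ip d x ^ 2)
      ≤ dlap (fun y => (nsq y)⁻¹) x t := by
    refine Finset.sum_le_sum fun d _ => ?_
    have e1 := nsq_add x t d
    have e2 := nsq_add x (-t) d
    rw [neg_smul, ← sub_eq_add_neg] at e2
    have p1 := hp d t ht
    have p2 := hp d (-t) (by simpa using ht)
    simp only [e1, e2]
    set B := 2 * ip d x * t
    have e3 : ρ + B + t ^ 2 = A + B := by simp only [A]; ring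
    have e4 : ρ + 2 * ip d x * -t + (-t) ^ 2 = A - B := by simp only [A, B]; ring
    rw [e3] at p1 ⊢
    rw [e4] at p2 ⊢
    have e5 : (A + B)⁻¹ + (A - B)⁻¹ - (2 / A + 2 * B ^ 2 / A ^ 3)
        = 2 * B ^ 4 / (A ^ 3 * ((A + B) * (A - B))) := by field_simp; ring
    have e6 : 8 * t ^ 2 / A ^ 3 * ip d x ^ 2 = 2 * B ^ 2 / A ^ 3 := by simp only [B]; ring
    have : 0 ≤ 2 * B ^ 4 / (A ^ 3 * ((A + B) * (A - B))) := by positivity
    rw [e6, div_eq_mul_inv 2 ρ]
    linarith
  refine le_trans ?_ h2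
  rw [Finset.sum_add_distrib, ← Finset.mul_sum, sum_ip]
  simp only [Finset.sum_const, Finset.card_univ, Fintype.card_prod, Fintype.card_fin,
    nsmul_eq_mul]
  have e7 : ((2 * 2 : ℕ) : ℝ) * (2 / A - 2 / ρ) + 8 * t ^ 2 / A ^ 3 * ρ
      = -(8 * t ^ 4 * (2 * ρ + t ^ 2) / (A ^ 3 * ρ)) := by
    push_cast; simp only [A]; field_simp; ring
  rw [e7, neg_le_neg_iff, div_le_div_iff₀ (by positivity) (by positivity)]
  have h3 : δ ^ 6 ≤ A ^ 2 * ρ := by
    calc δ ^ 6 = (δ ^ 2) ^ 2 * δ ^ 2 := by ring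
      _ ≤ A ^ 2 * ρ := by gcongr; simp only [A]; nlinarith [sq_nonneg t]
  calc 8 * t ^ 4 * (2 * ρ + t ^ 2) * δ ^ 6 ≤ 8 * t ^ 4 * (2 * A) * (A ^ 2 * ρ) := by
        gcongr; simp only [A]; nlinarith [sq_nonneg t]
    _ = _ := by ring

theorem Sub.not_max (h : Sub s x c) (hc : 0 < c) : ¬ IsLocalMax s x := fun hm => by
  obtain ⟨t, ⟨h1, h2⟩, h3⟩ := (((h (c / 2) (by linarith)).and (eventually_dir hm)).and
    self_mem_nhdsWithin).exists
  have : dlap s x t ≤ 0 := Finset.sum_nonpos fun d _ => by linarith [(h2 d).1, (h2 d).2]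
  have h4 : 0 < t := h3
  nlinarith [pow_pos h4 2]

/-- The maximum principle. -/
theorem max_principle {C : Set E2} {M : ℝ} (hC : IsCompact C) (hs : ContinuousOn s C)
    (h : ∀ x ∈ C, s x ≤ M ∨ (C ∈ 𝓝 x ∧ Sub s x 0)) : ∀ x ∈ C, s x ≤ M := by
  intro x₀ hx₀
  by_contra! hlt
  obtain ⟨R, hR⟩ := hC.exists_bound_of_continuousOn continuous_nsq.continuousOn
  have hR0 : 0 ≤ R := (norm_nonneg _).trans (hR x₀ hx₀)
  set κ := (s x₀ - M) / (R + 1)
  have hκ : 0 < κ := div_pos (by linarith) (by linarith)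
  have hκ' : κ * (R + 1) = s x₀ - M := div_mul_cancel₀ _ (by linarith)
  obtain ⟨y, hy, hmax⟩ := hC.exists_isMaxOn ⟨x₀, hx₀⟩
    (f := fun y => s y + κ * nsq (y - 0))
    (hs.add (Continuous.continuousOn (by have := continuous_nsq; fun_prop)))
  rcases h y hy with h1 | ⟨h1, h2⟩
  · have h3 : s x₀ + κ * nsq (x₀ - 0) ≤ s y + κ * nsq (y - 0) := hmax hx₀
    have h4 := (le_abs_self _).trans (hR y hy)
    rw [sub_zero, sub_zero] at h3
    nlinarith [nsq_nonneg x₀]
  · exact (h2.add ((sub_nsq 0 y).mul hκ.le)).not_max (by positivity) (hmax.isLocalMax h1)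

end Pool.Agent.Lib.MP_823829_an.PT
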