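import Pool.Agent.Lib.MP_823829_an.PT.Pol

/-! The two constants theorem and the theorem of Kellogg. -/

namespace Pool.Agent.Lib.MP_823829_an.PT

open Set Filter Topology Metric MeasureTheory

variable {K K' V V' W W' : Set E2} {ε : ℝ}

theorem TCp.mono (h : TCp K V V' ε) (hK : K ⊆ K') (hV : V ⊆ W) (hV' : W' ⊆ V') : TCp K' W W' ε :=
  fun g g1 g2 t ht g3 z hz => h g (g1.mono hV) (fun y hy => g2 y (hV hy)) t ht
    (fun y hy h1 => g3 y (hV hy) (hK h1)) z (hV' hz)

theorem TCp.of_closure (h : TCp (closure K) V V' ε) (hV : IsOpen V) : TCp K V V' ε :=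
  fun g g1 g2 t ht g3 => h g g1 g2 t ht fun _ hz h1 =>
    le_of_tendsto_of_frequently (g1.continuousOn.continuousAt (hV.mem_nhds hz)).norm
      (((mem_closure_iff_frequently.1 h1).and_eventually (hV.mem_nhds hz)).mono
        fun y hy => g3 y hy.2 hy.1)

/-- The two constants theorem near some point of a closed set which is not negligible. -/
theorem two_const (hK : IsClosed K) {c : E2} {η : ℝ} (hη : 0 < η)
    (h : ¬ NP (K ∩ closedBall c η)) (hε : 0 < ε) :
    ∃ ζ ∈ K ∩ closedBall c η, ∃ r > 0, TCp K (ball c (9 * η)) (ball ζ r) ε := by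
  obtain ⟨u, κ, hκ, hu, u1, u2, u3⟩ := barrier hK hη h
  have hc := (isCompact_closedBall c η).inter_left hK
  obtain ⟨ζ, hζ, hm⟩ := hc.exists_isMaxOn (nonempty_iff_ne_empty.2 fun h0 => h (h0 ▸ np_empty))
    hu.continuousOn
  have hM : 0 < u ζ := hκ.trans_le (u3 ζ (closedBall_subset_closedBall (by linarith) hζ.2))
  have hn : ∀ x ∈ ball c (8 * η), closedBall c (8 * η) ∈ 𝓝 x := fun x hx =>
    mem_of_superset (isOpen_ball.mem_nhds hx) ball_subset_closedBall
  have h1 := max_principle (M := u ζ) (isCompact_closedBall c (8 * η)) hu.continuousOn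
    fun x _ => by
      by_cases h2 : x ∈ K ∩ closedBall c η
      · exact Or.inl (hm h2)
      by_cases h3 : x ∈ ball c (8 * η)
      · exact Or.inr ⟨hn x h3, u1 x h2⟩
      · exact Or.inl ((u2 x h3).trans hM.le)
  obtain ⟨r, hr, h2⟩ := Metric.eventually_nhds_iff_ball.1 ((hu.continuousAt.eventually
    (lt_mem_nhds (show (1 - ε) * u ζ < u ζ by nlinarith))).and
    (hn ζ (closedBall_subset_ball (by linarith) hζ.2)))
  refine ⟨ζ, hζ, r, hr, fun g g1 g2 t ht g3 z hz => ?_⟩
  have hs : closedBall c (8 * η) ⊆ ball c (9 * η) := closedBall_subset_ball (by linarith)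
  have hp : ∀ x, 0 < max ‖g x‖ (Real.exp (-t)) := fun x => lt_max_of_lt_right (Real.exp_pos _)
  have hq : 0 ≤ t / u ζ := div_nonneg ht hM.le
  have key := max_principle (M := 0) (isCompact_closedBall c (8 * η))
    (s := fun x => Real.log (max ‖g x‖ (Real.exp (-t))) + t / u ζ * u x)
    ((((g1.continuousOn.mono hs).norm.sup continuousOn_const).log fun x _ => (hp x).ne').add
      (hu.continuousOn.const_mul _)) (fun x hx => ?_) z (h2 z hz).2
  · have h3 := mul_le_mul_of_nonneg_left (h2 z hz).1.le hq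
    rw [mul_left_comm, div_mul_cancel₀ _ hM.ne'] at h3
    exact (le_max_left _ _).trans ((Real.log_le_iff_le_exp (hp z)).1 (by linarith))
  by_cases h3 : ‖g x‖ ≤ Real.exp (-t)
  · have h4 := mul_le_mul_of_nonneg_left (h1 x hx) hq
    rw [div_mul_cancel₀ _ hM.ne'] at h4
    exact Or.inl (by rw [max_eq_right h3, Real.log_exp]; linarith)
  by_cases h4 : x ∈ ball c (8 * η)
  swap
  · exact Or.inl (add_nonpos (Real.log_nonpos (hp x).le (max_le (g2 x (hs hx))
      (Real.exp_le_one_iff.2 (by linarith)))) (mul_nonpos_of_nonneg_of_nonpos hq (u2 x h4)))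
  refine Or.inr ⟨hn x h4, ?_⟩
  have h5 : g x ≠ 0 := fun h0 => h3 (by rw [h0, norm_zero]; positivity)
  have h6 := LA.ana isOpen_ball g1 x (hs hx)
  have h7 : AnalyticAt ℂ (fun y => Complex.log (g y / g x) + Real.log ‖g x‖) x :=
    ((h6.div_const).clog (by simp [div_self h5])).add analyticAt_const
  refine (((sub_re h7).congr ?_).add ((u1 x fun h8 => h3 (g3 x (hs hx) h8.1)).mul hq)).mono
    (by simp)
  filter_upwards [h6.continuousAt.norm.eventually (lt_mem_nhds (not_le.1 h3))] with y hy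
  have h8 : ‖g y‖ ≠ 0 := ((Real.exp_pos _).trans hy).ne'
  rw [max_eq_left hy.le, Complex.add_re, Complex.log_re, norm_div,
    Real.log_div h8 (norm_ne_zero_iff.2 h5), Complex.ofReal_re, sub_add_cancel]

/-- The theorem of Kellogg: the irregular points of any set form a negligible set. -/
theorem kellogg (K : Set E2) : NP {s ∈ closure K | ¬ TCpt K s} := by
  obtain ⟨B, hB, -, hb⟩ := TopologicalSpace.exists_countable_basis E2
  let G : Set E2 → ℕ → Set E2 := fun V n =>
    {s | ∃ V' ∈ 𝓝 s, TCp (closure K) V V' (1 / ((n : ℝ) + 1))}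
  have hG : ∀ V n, IsOpen (G V n) := fun V n => isOpen_iff_mem_nhds.2 fun _ ⟨O, h1, h2⟩ =>
    mem_of_superset (eventually_mem_nhds_iff.2 h1) fun _ hy => ⟨O, hy, h2⟩
  refine (np_biUnion hB fun V hV => np_iUnion fun n : ℕ =>
    (?_ : NP ((closure K \ G V n) ∩ V))).mono fun s hs => ?_
  · refine np_loc fun x hx => ?_
    obtain ⟨r, hr, h1⟩ := Metric.isOpen_iff.1 (hb.isOpen hV) x hx.2
    refine ⟨_, closedBall_mem_nhds x (by positivity : 0 < r / 9), by_contra fun h => ?_⟩
    obtain ⟨ζ, h2, r', hr', h3⟩ := two_const (isClosed_closure.sdiff (hG V n))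
      (by positivity : 0 < r / 9) (fun h0 => h (h0.mono (inter_subset_inter_left _
        inter_subset_left))) (by positivity : (0 : ℝ) < 1 / ((n : ℝ) + 1))
    exact h2.1.2 ⟨_, ball_mem_nhds ζ hr', h3.mono sdiff_subset
      ((ball_subset_ball (by linarith)).trans h1) subset_rfl⟩
  · by_contra h
    refine hs.2 fun r ε hr hε => ?_
    obtain ⟨V, hV, h1, h2⟩ := hb.exists_subset_of_mem_open (mem_ball_self hr) isOpen_ball
    obtain ⟨n, hn⟩ := exists_nat_one_div_lt hε
    obtain ⟨V', h3, h4⟩ : s ∈ G V n := by_contra fun h5 =>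
      h (mem_biUnion hV (mem_iUnion.2 ⟨n, ⟨hs.1, h5⟩, h1⟩))
    obtain ⟨r', hr', h5⟩ := Metric.mem_nhds_iff.1 h3
    refine ⟨min r' r, lt_min hr' hr, min_le_right _ _, fun g g1 g2 t ht g3 z hz =>
      ((h4.mono subset_rfl h2 ((ball_subset_ball (min_le_left _ _)).trans h5)).of_closure
        isOpen_ball g g1 g2 t ht g3 z hz).trans (Real.exp_le_exp.2 (by nlinarith))⟩

end Pool.Agent.Lib.MP_823829_an.PT
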